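import Pool.Agent.H76.GX.Targets

/-!
# GMSNP: the type of the free amalgam is realized by the free amalgam
-/

set_option autoImplicit false
set_option linter.unusedVariables false

namespace Pool.Agent.H11.GX

open Pool.Agent.H68.BP Pool.Agent.H58.SF Pool.Agent.H53.GC Pool.Agent.H53.GR Pool.Agent.H53.GM
open Pool.Agent.H53.GX Pool.Agent.H76.GX
open Classical

theorem pf_FAE (hTPB : Pool.Agent.H53.GM.T_TPB) (hFGL : Pool.Agent.H76.GX.T_FGL) :
    Pool.Agent.H76.GX.T_FAE := by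
  intro τ N k F I S J p t W _ M M₁ M₂ B₁ B₂ b hyp hk hSI hfr
  apply Set.Subset.antisymm
  · intro q hq
    have h1 : ∀ (K : Type) (a : K → W), tp N M₁ a ⊆ tp N M a := fun K a =>
      (hTPB τ N W W K K M₁ M a).1 (fun x => x) (fun l z hz => (hfr.un l z).2 (Or.inl hz))
    have h2 : ∀ (K : Type) (a : K → W), tp N M₂ a ⊆ tp N M a := fun K a =>
      (hTPB τ N W W K K M₂ M a).1 (fun x => x) (fun l z hz => (hfr.un l z).2 (Or.inr hz))
    refine hq (tp N M b) ⟨W, inferInstance, M, b, hfr.val, rfl⟩ ?_ ?_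
    · have h3 := (hTPB τ N W W (Fin (k + k)) (Fin k) M M b).2.1 (rdp (S ∩ J))
      rw [← h3, ← hfr.t1]
      exact h1 _ _
    · rw [← hfr.t2]
      exact fun q' hq' => h2 _ _ hq'.1
  · rintro q hq t' ⟨W', _, M', b', hval, rfl⟩ hp ht
    have h3 := (hTPB τ N W' W' (Fin (k + k)) (Fin k) M' M' b').2.1 (rdp (S ∩ J))
    refine hFGL τ N k F I S J p t W M M₁ M₂ B₁ B₂ b hyp hk hSI hfr W' M' b' Finset.univ
      (fun v _ => Finset.mem_univ _) (fun q' hq' _ => ?_) ?_ ⟨hq, fun v i _ => Finset.mem_univ _⟩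
    · rw [h3]
      exact hp hq'
    · rw [Finset.univ_inter]
      exact ht

end Pool.Agent.H11.GX
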